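import Mathlib
import Pool.Agent.Lead.Der.Defs
import Pool.Agent.Lead.Der.Eul
import Pool.Agent.Lead.Der.P1
import Pool.Agent.Lead.Der.P2a
import Pool.Agent.Lead.Der.P2b
import Pool.Agent.Lead.Der.P3a
import Pool.Agent.Lead.Der.P3b
import Pool.Agent.Lead.Der.P4

set_option autoImplicit false

namespace Pool.Agent.Results.MP_72b677_al.GradedEquality

open IsLocalRing Pool.Agent.Lead.Der

variable {k A : Type} [Field k] [CommRing A] [Algebra k A] [IsLocalRing A] [Module.Finite k A]

theorem res (𝒜 : ℕ → Submodule k A) [GradedAlgebra 𝒜]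
    (h0 : ∀ a ∈ 𝒜 0, ∃ c : k, a = algebraMap k A c) (a : A) :
    ∃ c : k, a - algebraMap k A c ∈ maximalIdeal A := by
  induction a using DirectSum.Decomposition.inductionOn 𝒜 with
  | zero => exact ⟨0, by simp⟩
  | @homogeneous i a =>
    rcases Nat.eq_zero_or_pos i with hi | hi
    · subst hi
      obtain ⟨c, hc⟩ := h0 a a.2
      exact ⟨c, by rw [hc]; simp⟩
    · refine ⟨0, ?_⟩
      rw [map_zero, sub_zero]; exact pos_mem_max 𝒜 hi a.2
  | add a b ha hb =>
    obtain ⟨c, h2⟩ := ha
    obtain ⟨d, h4⟩ := hb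
    exact ⟨c + d, by rw [map_add, add_sub_add_comm]; exact add_mem h2 h4⟩

theorem euler_mem (𝒜 : ℕ → Submodule k A) [GradedAlgebra 𝒜] (a : A) :
    euler 𝒜 a ∈ maximalIdeal A := by
  induction a using DirectSum.Decomposition.inductionOn 𝒜 with
  | zero => simp
  | @homogeneous i a =>
    have hE : euler 𝒜 a = (i : k) • (a : A) := eulerMap_of_mem 𝒜 a.2
    rw [hE]
    rcases Nat.eq_zero_or_pos i with hi | hi
    · subst hi; simp
    · exact Submodule.smul_of_tower_mem _ _ (pos_mem_max 𝒜 hi a.2)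
  | add a b ha hb =>
    rw [map_add]; exact add_mem ha hb

theorem socle_ne (A : Type) [CommRing A] [IsLocalRing A] [IsArtinianRing A]
    (M : Type) [AddCommGroup M] [Module A M] [Nontrivial M] :
    ∃ s ∈ socle A M, s ≠ 0 := by
  obtain ⟨p, hp⟩ := associatedPrimes.nonempty A M
  obtain ⟨hprime, x, hx⟩ := isAssociatedPrime_iff.1 (show IsAssociatedPrime p M from hp)
  have hmax : p = maximalIdeal A := by
    have : p.IsMaximal := IsArtinianRing.isMaximal_of_isPrime p
    exact eq_maximalIdeal this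
  refine ⟨x, ?_, ?_⟩
  · intro a ha
    rw [← hmax, hx, Submodule.mem_colon_singleton] at ha
    simpa using ha
  · rintro rfl
    apply hprime.ne_top
    rw [hx, Ideal.eq_top_iff_one, Submodule.mem_colon_singleton]
    simp

theorem eq_of_surj (𝒜 : ℕ → Submodule k A) [GradedAlgebra 𝒜] [CharZero k]
    (h0 : ∀ a ∈ 𝒜 0, ∃ c : k, a = algebraMap k A c)
    (M : Type) [AddCommGroup M] [Module A M] [Module k M] [IsScalarTower k A M]
    (h : Function.Surjective (eul (euler 𝒜) M)) :
    Module.length A M = Module.length A (Derivation k A M) + Module.length A (socle A M) := by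
  have hker : LinearMap.ker (eul (euler 𝒜) M) = socle A M := by
    apply le_antisymm
    · intro m hm a ha
      have h1 : ∀ b ∈ Ideal.span (Set.range (euler 𝒜)), b • m = 0 := by
        intro b hb
        induction hb using Submodule.span_induction with
        | mem x hx =>
          obtain ⟨c, rfl⟩ := hx
          have := congrArg (fun D : Derivation k A M => D c) (LinearMap.mem_ker.1 hm)
          simpa [eul_apply] using this
        | zero => exact zero_smul _ _
        | add x y _ _ hx hy => rw [add_smul, hx, hy, add_zero]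
        | smul c x _ hx => rw [smul_assoc, hx, smul_zero]
      exact h1 a (max_le_span 𝒜 h0 ha)
    · intro m hm
      rw [LinearMap.mem_ker]
      ext a
      rw [eul_apply]
      exact hm _ (euler_mem 𝒜 a)
  have h2 := Module.length_eq_add_of_exact (LinearMap.ker (eul (euler 𝒜) M)).subtype
    (eul (euler 𝒜) M) (Submodule.subtype_injective _) h
    (by
      rw [LinearMap.exact_iff]
      simp)
  rw [h2, hker, add_comm]

theorem no_pair_of_principal (hres : ∀ a : A, ∃ c : k, a - algebraMap k A c ∈ maximalIdeal A)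
    (z : A) (hz : maximalIdeal A = Ideal.span {z}) (x₁ x₂ : A) (hx₁ : x₁ ∈ maximalIdeal A)
    (hx₂ : x₂ ∈ maximalIdeal A) (f₁ f₂ : A →ₗ[k] k)
    (h₁ : ∀ a ∈ maximalIdeal A, ∀ b ∈ maximalIdeal A, f₁ (a * b) = 0)
    (h₂ : ∀ a ∈ maximalIdeal A, ∀ b ∈ maximalIdeal A, f₂ (a * b) = 0)
    (h11 : f₁ x₁ = 1) (h12 : f₁ x₂ = 0) (h21 : f₂ x₁ = 0) (h22 : f₂ x₂ = 1) : False := by
  have hzm : z ∈ maximalIdeal A := by rw [hz]; exact Ideal.mem_span_singleton_self z
  have key : ∀ x ∈ maximalIdeal A, ∃ c : k, f₁ x = c * f₁ z ∧ f₂ x = c * f₂ z := by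
    intro x hx
    rw [hz, Ideal.mem_span_singleton'] at hx
    obtain ⟨a, rfl⟩ := hx
    obtain ⟨c, hc⟩ := hres a
    refine ⟨c, ?_, ?_⟩
    · have : a * z = c • z + (a - algebraMap k A c) * z := by rw [Algebra.smul_def]; ring
      rw [this, map_add, h₁ _ hc _ hzm, map_smul, smul_eq_mul, add_zero]
    · have : a * z = c • z + (a - algebraMap k A c) * z := by rw [Algebra.smul_def]; ring
      rw [this, map_add, h₂ _ hc _ hzm, map_smul, smul_eq_mul, add_zero]
  obtain ⟨c, hc1, hc2⟩ := key x₁ hx₁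
  obtain ⟨d, hd1, hd2⟩ := key x₂ hx₂
  rw [h11] at hc1
  rw [h21] at hc2
  rw [h12] at hd1
  rw [h22] at hd2
  have hf1 : f₁ z ≠ 0 := by rintro e; rw [e, mul_zero] at hc1; exact one_ne_zero hc1
  have hd0 : d = 0 := by
    rcases mul_eq_zero.1 hd1.symm with h | h
    · exact h
    · exact absurd h hf1
  rw [hd0, zero_mul] at hd2
  exact one_ne_zero hd2

theorem main [CharZero k] (𝒜 : ℕ → Submodule k A) [GradedAlgebra 𝒜]
    (h0 : ∀ a ∈ 𝒜 0, ∃ c : k, a = algebraMap k A c)
    (M : Type) [AddCommGroup M] [Module A M] [Module k M] [IsScalarTower k A M]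
    [Module.Finite A M] [Nontrivial M] :
    Module.length A M = Module.length A (Derivation k A M) + Module.length A (socle A M) ↔
      (maximalIdeal A).IsPrincipal ∧ Module.Free A M := by
  haveI hart : IsArtinianRing A := IsArtinianRing.of_finite k A
  have hres := res 𝒜 h0
  have hpos : ∀ n, 0 < n → ∀ a ∈ 𝒜 n, a ∈ maximalIdeal A := fun n hn a ha => pos_mem_max 𝒜 hn ha
  have hE := max_le_span 𝒜 h0
  constructor
  · intro h
    have hsurj := surj_of_eq (euler 𝒜) hE M h
    obtain ⟨s, hs, hs0⟩ := socle_ne A M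
    rcases exists_pair 𝒜 h0 hpos with ⟨w, hw, x, hxw, hx⟩ |
      ⟨w₁, w₂, x₁, x₂, f₁, f₂, a1, a2, a3, a4, a5, a6, a7, a8, a9, a10, a11, a12⟩
    · refine ⟨⟨x, hx⟩, ?_⟩
      have hxm : x ∈ maximalIdeal A := by rw [hx]; exact Ideal.mem_span_singleton_self x
      have hnil : IsNilpotent x := by
        have h1 : IsNilpotent (Ideal.jacobson (⊥ : Ideal A)) := IsArtinianRing.isNilpotent_jacobson_bot
        rw [jacobson_eq_maximalIdeal ⊥ bot_ne_top] at h1
        obtain ⟨N, hN⟩ := h1
        exact ⟨N, by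
          have := Ideal.pow_mem_pow hxm N
          rw [hN] at this
          simpa using this⟩
      classical
      have hfind := Nat.find_spec hnil
      obtain ⟨n, hn⟩ : ∃ n, Nat.find hnil = n + 1 := by
        rcases Nat.eq_zero_or_pos (Nat.find hnil) with h | h
        · rw [h, pow_zero] at hfind
          exact absurd hfind one_ne_zero
        · exact ⟨Nat.find hnil - 1, by omega⟩
      rw [hn] at hfind
      have hn' : x ^ n ≠ 0 := Nat.find_min hnil (by omega)
      refine free_of x hx n hfind hn' M ?_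
      intro y hy
      obtain ⟨D, hD⟩ := exists_der hres x hx n hfind hn' M y hy
      obtain ⟨m, hm⟩ := hsurj D
      refine ⟨(w : k) • m, ?_⟩
      rw [← hD, ← hm, eul_apply]
      have : euler 𝒜 x = (w : k) • x := eulerMap_of_mem 𝒜 hxw
      rw [this, smul_assoc, smul_comm]
    · exact (no_pair 𝒜 h0 hpos M hsurj s hs hs0 w₁ w₂ a1 a2 x₁ x₂ a3 a4 f₁ f₂ a5 a6 a7 a8 a9 a10 a11
        a12).elim
  · rintro ⟨⟨z, hz⟩, hfree⟩
    rcases exists_pair 𝒜 h0 hpos with ⟨w, hw, x, hxw, hx⟩ |
      ⟨w₁, w₂, x₁, x₂, f₁, f₂, a1, a2, a3, a4, a5, a6, a7, a8, a9, a10, a11, a12⟩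
    · have : euler 𝒜 x = (w : k) • x := eulerMap_of_mem 𝒜 hxw
      have hsurj : Function.Surjective (eul (euler 𝒜) M) :=
        surj_of_free hres (euler 𝒜) x hx (w : k) (by exact_mod_cast hw.ne') this M
      exact eq_of_surj 𝒜 h0 M hsurj
    · exact (no_pair_of_principal hres z hz x₁ x₂ (hpos _ a1 _ a3) (hpos _ a2 _ a4) f₁ f₂ a5 a6
        a9 a10 a11 a12).elim

/-- For a positively graded Artinian local algebra `A` over a field `k` of characteristic zero
(finite-dimensional, `A₀ = k`) and every finitely generated `A`-module `M`,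
`l(M) ≤ l(Der_k(A, M)) + l(socle M)`; for `M ≠ 0` equality holds iff the maximal ideal of `A` is
principal (i.e. `A ≅ k[x]/(x^n)`) and `M` is free. -/
theorem result (k A : Type) [Field k] [CharZero k] [CommRing A] [Algebra k A] [IsLocalRing A]
    [Module.Finite k A] (𝒜 : ℕ → Submodule k A) [GradedAlgebra 𝒜]
    (h0 : ∀ a ∈ 𝒜 0, ∃ c : k, a = algebraMap k A c)
    (M : Type) [AddCommGroup M] [Module A M] [Module k M] [IsScalarTower k A M]
    [Module.Finite A M] :
    Module.length A M ≤ Module.length A (Derivation k A M) + Module.length A (socle A M) ∧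
    (Nontrivial M →
      (Module.length A M = Module.length A (Derivation k A M) + Module.length A (socle A M) ↔
        (maximalIdeal A).IsPrincipal ∧ Module.Free A M)) :=
  ⟨main_ineq (euler 𝒜) (max_le_span 𝒜 h0) M, fun _ => main 𝒜 h0 M⟩

end Pool.Agent.Results.MP_72b677_al.GradedEquality
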